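import Pool.Agent.Helper94.US.Stm

/-!
# Piece F1a: growth of the recurrence sequences
-/

set_option autoImplicit false

namespace Pool.Agent.Helper98.US

open Polynomial Finset Pool.Agent.H692R2.USS Pool.Agent.TH997.US Pool.Agent.Helper94.US

theorem sq_le_two_pow : ∀ k : ℕ, 4 ≤ k → k * k ≤ 2 ^ k := by
  intro k hk
  induction k, hk using Nat.le_induction with
  | base => norm_num
  | succ k hk ih =>
    rw [pow_succ]
    nlinarith

theorem iv_abs {x : Z} {k : ℕ} (h : lez x k) : |iv x| ≤ (k : ℤ) := by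
  unfold lez at h
  unfold iv
  rw [abs_le]
  constructor <;> omega

theorem t_F1a : F1a := by
  intro G A k Vb hk hG1 hGk hA hG hAV b
  have hann := run_ann (G := G) (a := A) (by omega) hA
  rw [ann_PG] at hann
  have hk2 : (k : ℤ) * k ≤ 2 ^ k := by exact_mod_cast sq_le_two_pow k hk
  induction b using Nat.strong_induction_on with
  | _ b ih =>
  rcases lt_or_ge b G.length with hb | hb
  · rw [run_init (by omega)]
    have h1 : |iv (A.getD b (0, 0))| ≤ (Vb : ℤ) := iv_abs (hAV b hb)
    have h2 : (1 : ℤ) ≤ 2 ^ (k * b) := one_le_pow₀ (by norm_num)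
    have h3 : (0 : ℤ) ≤ Vb := by positivity
    nlinarith
  · have h1 := hann (b - G.length)
    rw [Nat.sub_add_cancel hb] at h1
    rw [h1, abs_neg]
    have h2 : ∀ i ∈ range G.length,
        |iv (G.getD i (0, 0)) * iv (run G A (b - G.length + i))| ≤ (k : ℤ) * (Vb * 2 ^ (k * (b - 1))) := by
      intro i hi
      rw [mem_range] at hi
      rw [abs_mul]
      have h3 : |iv (G.getD i (0, 0))| ≤ (k : ℤ) := iv_abs (hG i hi)
      have h4 := ih (b - G.length + i) (by omega)
      have h5 : (2 : ℤ) ^ (k * (b - G.length + i)) ≤ 2 ^ (k * (b - 1)) := by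
        apply pow_le_pow_right₀ (by norm_num)
        apply Nat.mul_le_mul_left
        omega
      have h6 : (Vb : ℤ) * 2 ^ (k * (b - G.length + i)) ≤ Vb * 2 ^ (k * (b - 1)) := by gcongr
      exact mul_le_mul h3 (h4.trans h6) (abs_nonneg _) (by positivity)
    refine (abs_sum_le_sum_abs _ _).trans ((sum_le_sum h2).trans ?_)
    rw [sum_const, card_range, nsmul_eq_mul]
    have h3 : (G.length : ℤ) ≤ k := by exact_mod_cast hGk
    have h4 : (0 : ℤ) ≤ (Vb : ℤ) * 2 ^ (k * (b - 1)) := by positivity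
    have h5 : (2 : ℤ) ^ (k * b) = 2 ^ k * 2 ^ (k * (b - 1)) := by
      rw [← pow_add]
      congr 1
      have : b = b - 1 + 1 := by omega
      conv_lhs => rw [this]
      ring
    calc (G.length : ℤ) * ((k : ℤ) * (Vb * 2 ^ (k * (b - 1))))
        ≤ (k : ℤ) * ((k : ℤ) * (Vb * 2 ^ (k * (b - 1)))) := by gcongr
      _ = ((k : ℤ) * k) * (Vb * 2 ^ (k * (b - 1))) := by ring
      _ ≤ 2 ^ k * (Vb * 2 ^ (k * (b - 1))) := by gcongr
      _ = Vb * 2 ^ (k * b) := by rw [h5]; ring

end Pool.Agent.Helper98.US
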